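import Mathlib

set_option autoImplicit false

namespace Pool.Agent.P.MP_fd6048_an

open Polynomial Filter Topology

section Alg
variable {K : Type*} [Field K] {Y : Type*} [AddCommGroup Y] [Module K Y]

theorem pow_mem_span (S : Module.End K Y) (v : Y) (p : K[X]) (hp : p ≠ 0)
    (h : aeval S p v = 0) (n : ℕ) :
    (S ^ n) v ∈ Submodule.span K (Set.range fun i : Fin p.natDegree => (S ^ (i : ℕ)) v) := by
  have h1 : (X ^ n : K[X]) = (X ^ n / p) * p + X ^ n % p := by
    rw [mul_comm]; exact (EuclideanDomain.div_add_mod _ _).symm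
  have h2 : (S ^ n) v = aeval S (X ^ n % p) v := by
    have : S ^ n = aeval S (X ^ n : K[X]) := by simp
    rw [this]
    conv_lhs => rw [h1]
    rw [map_add, map_mul, LinearMap.add_apply, Module.End.mul_apply, h, map_zero, zero_add]
  rw [h2]
  by_cases hr : (X ^ n % p : K[X]) = 0
  · rw [hr]; simp
  · have hlt : (X ^ n % p : K[X]).natDegree < p.natDegree :=
      natDegree_lt_natDegree hr (degree_mod_lt _ hp)
    rw [aeval_eq_sum_range' hlt, LinearMap.sum_apply]
    refine Submodule.sum_mem _ fun i hi => ?_
    rw [LinearMap.smul_apply]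
    exact Submodule.smul_mem _ _
      (Submodule.subset_span ⟨⟨i, Finset.mem_range.1 hi⟩, rfl⟩)

end Alg

section Top
variable {K : Type*} [RCLike K] {Y : Type*} [AddCommGroup Y] [Module K Y] [TopologicalSpace Y]
  [IsTopologicalAddGroup Y] [ContinuousSMul K Y]

theorem span_top_of_dense [T2Space Y] (S : Module.End K Y) (v : Y) (p : K[X]) (hp : p ≠ 0)
    (h : aeval S p v = 0) (hd : Dense (Set.range fun n : ℕ => (S ^ n) v)) :
    Submodule.span K (Set.range fun i : Fin p.natDegree => (S ^ (i : ℕ)) v) = ⊤ := by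
  set W := Submodule.span K (Set.range fun i : Fin p.natDegree => (S ^ (i : ℕ)) v)
  have : FiniteDimensional K W := FiniteDimensional.span_of_finite K (Set.finite_range _)
  have hc : IsClosed (W : Set Y) := W.closed_of_finiteDimensional
  have hsub : (Set.range fun n : ℕ => (S ^ n) v) ⊆ W := by
    rintro _ ⟨n, rfl⟩
    exact pow_mem_span S v p hp h n
  rw [eq_top_iff]
  intro y _
  exact hc.closure_subset_iff.2 hsub (hd y)

theorem not_dense_fd [T2Space Y] [FiniteDimensional K Y] [Nontrivial Y]
    (S : Module.End K Y) (v : Y) : ¬ Dense (Set.range fun n : ℕ => (S ^ n) v) := by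
  classical
  intro hd
  have htop := span_top_of_dense S v S.charpoly S.charpoly_monic.ne_zero
    (by rw [S.aeval_self_charpoly]; rfl) hd
  have hdeg : S.charpoly.natDegree = Module.finrank K Y := S.charpoly_natDegree
  have hpos : 0 < S.charpoly.natDegree := hdeg ▸ Module.finrank_pos
  set d := S.charpoly.natDegree
  let b : Module.Basis (Fin d) K Y := Module.finBasisOfFinrankEq K Y hdeg.symm
  let D : Y → K := fun y => b.det fun i : Fin d => (S ^ (i : ℕ)) y
  have hli := linearIndependent_of_top_le_span_of_card_eq_finrank htop.ge (by simp [hdeg])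
  have hv : D v ≠ 0 := (b.is_basis_iff_det.1 ⟨hli, htop⟩).ne_zero
  have hS : ∀ y, D (S y) = LinearMap.det S * D y := by
    intro y
    rw [← b.det_comp]
    have : (fun i : Fin d => (S ^ (i : ℕ)) (S y)) = S ∘ fun i : Fin d => (S ^ (i : ℕ)) y := by
      ext i
      simp only [Function.comp_apply]
      rw [← Module.End.mul_apply, ← Module.End.mul_apply, ← pow_succ, ← pow_succ']
    exact congrArg b.det this
  have hSn : ∀ n : ℕ, D ((S ^ n) v) = LinearMap.det S ^ n * D v := by
    intro n
    induction n with
    | zero => simp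
    | succ n ih => rw [pow_succ', Module.End.mul_apply, hS, ih, pow_succ']; ring
  have hsm : ∀ (t : K) y, D (t • y) = t ^ d * D y := by
    intro t y
    have := b.det.map_smul_univ (fun _ => t) (fun i : Fin d => (S ^ (i : ℕ)) y)
    simp only [Finset.prod_const, Finset.card_univ, Fintype.card_fin, smul_eq_mul] at this
    rw [← this]
    simp [D]
  have hcont : Continuous D := by
    simp only [D, Module.Basis.det_apply]
    refine Continuous.matrix_det (continuous_matrix fun i j => ?_)
    simp only [Module.Basis.toMatrix_apply]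
    exact ((b.coord i).comp (S ^ (j : ℕ))).continuous_of_finiteDimensional
  have hnorm : 0 < ‖D v‖ := norm_pos_iff.2 hv
  rcases le_total ‖LinearMap.det S‖ 1 with h | h
  · have hc : IsClosed {y | ‖D y‖ ≤ ‖D v‖} := isClosed_le hcont.norm continuous_const
    have hsub : (Set.range fun n : ℕ => (S ^ n) v) ⊆ {y | ‖D y‖ ≤ ‖D v‖} := by
      rintro _ ⟨n, rfl⟩
      show ‖D ((S ^ n) v)‖ ≤ _
      rw [hSn, norm_mul, norm_pow]
      exact mul_le_of_le_one_left hnorm.le (pow_le_one₀ (norm_nonneg _) h)
    have h2 : ‖D ((2 : K) • v)‖ ≤ ‖D v‖ := hc.closure_subset_iff.2 hsub (hd _)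
    rw [hsm, norm_mul, norm_pow, RCLike.norm_two] at h2
    have : (1 : ℝ) < 2 ^ d := one_lt_pow₀ (by norm_num) hpos.ne'
    nlinarith
  · have hc : IsClosed {y | ‖D v‖ ≤ ‖D y‖} := isClosed_le continuous_const hcont.norm
    have hsub : (Set.range fun n : ℕ => (S ^ n) v) ⊆ {y | ‖D v‖ ≤ ‖D y‖} := by
      rintro _ ⟨n, rfl⟩
      show _ ≤ ‖D ((S ^ n) v)‖
      rw [hSn, norm_mul, norm_pow]
      exact le_mul_of_one_le_left hnorm.le (one_le_pow₀ h)
    have h2 : ‖D v‖ ≤ ‖D ((0 : K) • v)‖ := hc.closure_subset_iff.2 hsub (hd _)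
    rw [hsm, zero_pow hpos.ne', zero_mul, norm_zero] at h2
    linarith

omit [TopologicalSpace Y] [IsTopologicalAddGroup Y] [ContinuousSMul K Y] in
theorem semiconj_aeval {Z : Type*} [AddCommGroup Z] [Module K Z] (q : Y →ₗ[K] Z)
    (T : Module.End K Y) (S : Module.End K Z) (h : ∀ y, q (T y) = S (q y)) (p : K[X]) (y : Y) :
    q (aeval T p y) = aeval S p (q y) := by
  have hn : ∀ (n : ℕ) y, q ((T ^ n) y) = (S ^ n) (q y) := by
    intro n
    induction n with
    | zero => simp
    | succ n ih => intro y; rw [pow_succ, pow_succ, Module.End.mul_apply, Module.End.mul_apply, ih, h]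
  rw [aeval_eq_sum_range, aeval_eq_sum_range, LinearMap.sum_apply, LinearMap.sum_apply, map_sum]
  refine Finset.sum_congr rfl fun i _ => ?_
  rw [LinearMap.smul_apply, LinearMap.smul_apply, map_smul, hn]

omit [IsTopologicalAddGroup Y] [ContinuousSMul K Y] in
theorem continuous_pow_end (T : Module.End K Y) (hT : Continuous T) (n : ℕ) :
    Continuous (T ^ n : Module.End K Y) := by
  have : ((T ^ n : Module.End K Y) : Y → Y) = T^[n] := by
    ext y; exact Module.End.pow_apply T n y
  rw [this]
  exact hT.iterate n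

theorem continuous_aeval_end (T : Module.End K Y) (hT : Continuous T) (p : K[X]) :
    Continuous (aeval T p : Module.End K Y) := by
  have : ((aeval T p : Module.End K Y) : Y → Y) =
      fun y => ∑ i ∈ Finset.range (p.natDegree + 1), p.coeff i • (T ^ i) y := by
    ext y
    rw [aeval_eq_sum_range, LinearMap.sum_apply]
    rfl
  rw [this]
  exact continuous_finsetSum _ fun i _ => (continuous_pow_end T hT i).const_smul _

/-- Bourdon, Bes, Wengenroth: nonzero polynomials in a hypercyclic operator have dense range -/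
theorem denseRange_aeval (T : Module.End K Y) (hT : Continuous T) (x : Y)
    (hx : Dense (Set.range fun n : ℕ => (T ^ n) x)) (p : K[X]) (hp : p ≠ 0) :
    DenseRange (aeval T p : Module.End K Y) := by
  set L := (LinearMap.range (aeval T p : Module.End K Y)).topologicalClosure with hL
  have hLc : IsClosed (L : Set Y) := Submodule.isClosed_topologicalClosure _
  have hinv : L ≤ L.comap T := by
    intro y hy
    have h1 : Set.MapsTo T (LinearMap.range (aeval T p : Module.End K Y))
        (LinearMap.range (aeval T p : Module.End K Y)) := by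
      rintro _ ⟨z, rfl⟩
      exact ⟨T z, (semiconj_aeval T T T (fun _ => rfl) p z).symm⟩
    exact h1.closure hT hy
  let S : Module.End K (Y ⧸ L) := L.mapQ L T hinv
  have hq : ∀ y, L.mkQ (T y) = S (L.mkQ y) := fun y => rfl
  have hqn : ∀ (n : ℕ), L.mkQ ((T ^ n) x) = (S ^ n) (L.mkQ x) := by
    intro n
    have := semiconj_aeval L.mkQ T S hq (X ^ n) x
    simpa only [map_pow, aeval_X] using this
  have hd : Dense (Set.range fun n : ℕ => (S ^ n) (L.mkQ x)) := by
    have h1 : DenseRange L.mkQ := L.mkQ_surjective.denseRange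
    have h2 := h1.dense_image L.continuous_mkQ hx
    rw [← Set.range_comp] at h2
    have h3 : (L.mkQ ∘ fun n : ℕ => (T ^ n) x) = fun n : ℕ => (S ^ n) (L.mkQ x) := funext hqn
    rwa [h3] at h2
  have h0 : aeval S p (L.mkQ x) = 0 := by
    rw [← semiconj_aeval L.mkQ T S hq, Submodule.mkQ_apply, Submodule.Quotient.mk_eq_zero]
    exact Submodule.le_topologicalClosure _ ⟨x, rfl⟩
  have htop := span_top_of_dense S _ p hp h0 hd
  have hfd : FiniteDimensional K (Y ⧸ L) :=
    Module.finite_def.2 (htop ▸ Submodule.fg_span (Set.finite_range _))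
  have hsub : Subsingleton (Y ⧸ L) := by
    by_contra hne
    have : Nontrivial (Y ⧸ L) := not_subsingleton_iff_nontrivial.1 hne
    exact not_dense_fd S _ hd
  have hLtop : L = ⊤ := Submodule.Quotient.subsingleton_iff.1 hsub
  have : Dense ((LinearMap.range (aeval T p : Module.End K Y) : Submodule K Y) : Set Y) :=
    Submodule.dense_iff_topologicalClosure_eq_top.2 hLtop
  exact this

theorem hc_aeval (T : Module.End K Y) (hT : Continuous T) (x : Y)
    (hx : Dense (Set.range fun n : ℕ => (T ^ n) x)) (p : K[X]) (hp : p ≠ 0) :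
    Dense (Set.range fun n : ℕ => (T ^ n) (aeval T p x)) := by
  have h2 := (denseRange_aeval T hT x hx p hp).dense_image (continuous_aeval_end T hT p) hx
  rw [← Set.range_comp] at h2
  convert h2 using 2
  ext n
  have := semiconj_aeval (T ^ n) T T (fun y => by
    rw [← Module.End.mul_apply, ← Module.End.mul_apply, ← pow_succ, ← pow_succ']) p x
  exact this

theorem hc_sum (T : Module.End K Y) (hT : Continuous T) (x : Y)
    (hx : Dense (Set.range fun n : ℕ => (T ^ n) x)) (k : ℕ) (b : Fin k → K) (hb : b ≠ 0) :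
    Dense (Set.range fun n : ℕ => (T ^ n) (∑ j : Fin k, b j • (T ^ (j : ℕ)) x)) := by
  have h := hc_aeval T hT x hx (∑ j : Fin k, monomial (j : ℕ) (b j)) ?_
  · convert h using 4
    simp [map_sum, aeval_monomial, Algebra.algebraMap_eq_smul_one]
  · intro h0
    apply hb
    ext i
    have := congrArg (fun q => coeff q (i : ℕ)) h0
    simp only [finsetSum_coeff, coeff_monomial, coeff_zero] at this
    rw [Finset.sum_eq_single i] at this
    · simpa using this
    · intro j _ hj
      rw [if_neg (fun h => hj (Fin.ext h))]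
    · simp

end Top

end Pool.Agent.P.MP_fd6048_an
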