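import Pool.Agent.P.MP_fd6048_an.Main

set_option autoImplicit false

namespace Pool.Agent.P.MP_fd6048_an

open Filter Topology Cardinal TopologicalSpace Pointwise

theorem continuum_le_rank_l2 (K : Type) [RCLike K] :
    𝔠 ≤ Module.rank K (lp (fun _ : ℕ => K) 2) := by
  have hm : ∀ t : Set.Icc (0 : ℝ) (1 / 2), Memℓp (fun j : ℕ => ((t : ℝ) : K) ^ j) 2 := by
    intro t
    refine memℓp_gen ?_
    have h1 : Summable fun j : ℕ => ((t : ℝ) ^ 2) ^ j :=
      summable_geometric_of_lt_one (by positivity) (by nlinarith [t.2.1, t.2.2])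
    refine h1.congr fun j => ?_
    rw [norm_pow, RCLike.norm_ofReal, abs_of_nonneg t.2.1, ENNReal.toReal_ofNat, Real.rpow_two]
    ring
  let v : Set.Icc (0 : ℝ) (1 / 2) → lp (fun _ : ℕ => K) 2 := fun t => ⟨_, hm t⟩
  let c : lp (fun _ : ℕ => K) 2 →ₗ[K] (ℕ → K) :=
    { toFun := fun a => (a : ℕ → K)
      map_add' := fun a b => lp.coeFn_add a b
      map_smul' := fun r a => lp.coeFn_smul r a }
  have hli : LinearIndependent K v := by
    refine LinearIndependent.of_comp c ?_
    have h := (linearIndependent_monoidHom (Multiplicative ℕ) K).comp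
      (fun t : Set.Icc (0 : ℝ) (1 / 2) => powersHom K ((t : ℝ) : K)) (by
        intro s t hst
        have := (powersHom K).injective hst
        exact Subtype.ext (RCLike.ofReal_injective this))
    exact h
  have := hli.cardinal_le_rank
  rwa [Cardinal.mk_Icc_real (by norm_num)] at this

/-- the compact annuli of coefficient vectors -/
def Ann (K : Type) [RCLike K] (k : ℕ) : Set (Fin k × Fin k → K) :=
  Metric.closedBall 0 k \ Metric.ball 0 (1 / (k + 1))

theorem isCompact_Ann (K : Type) [RCLike K] (k : ℕ) : IsCompact (Ann K k) :=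
  (isCompact_closedBall _ _).diff Metric.isOpen_ball

theorem range_of_seq (K : Type) [RCLike K] (X : Type) [AddCommGroup X] [Module K X]
    [UniformSpace X] [IsUniformAddGroup X] [CompleteSpace X] [ContinuousSMul K X]
    [TopologicalSpace.MetrizableSpace X] (O : ∀ k : ℕ, Set (Fin k → X))
    (hO : ∀ k, IsOpen (O k)) (y : ℕ → X)
    (hy : ∀ k, ∀ b ∈ Ann K k, (fun i : Fin k => ∑ j : Fin k, b (i, j) • y j) ∈ O k) :
    ∃ J : lp (fun _ : ℕ => K) 2 →L[K] X, (∀ j, y j ∈ Set.range J) ∧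
      ∀ (a : ℕ → lp (fun _ : ℕ => K) 2) (D : ℝ), (∀ i, ‖a i‖ ≤ D) → a ≠ 0 →
        ∀ᶠ k in atTop, (fun i : Fin k => J (a i)) ∈ O k := by
  classical
  let C : ∀ k : ℕ, Set (Fin k → X) := fun k =>
    (fun (b : Fin k × Fin k → K) (i : Fin k) => ∑ j : Fin k, b (i, j) • y j) '' Ann K k
  have hC : ∀ k, IsCompact (C k) := fun k =>
    (isCompact_Ann K k).image (continuous_pi fun i =>
      continuous_finsetSum _ fun j _ => (continuous_apply (i, j)).smul continuous_const)
  have hCO : ∀ k, C k ⊆ O k := by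
    rintro k _ ⟨b, hb, rfl⟩
    exact hy k b hb
  have hN : ∀ k, ∃ N ∈ 𝓝 (0 : X), IsClosed N ∧
      ∀ c ∈ C k, ∀ w : Fin k → X, (∀ i, w i ∈ N) → c + w ∈ O k := by
    intro k
    obtain ⟨N, hN, hN'⟩ := compact_open_separated_add_right (hC k) (hO k) (hCO k)
    rw [nhds_pi, Filter.mem_pi] at hN
    obtain ⟨I, -, t, ht, htN⟩ := hN
    obtain ⟨N', h1, h2, h3⟩ := exists_mem_nhds_isClosed_subset (Filter.iInter_mem.2 ht)
    exact ⟨N', h1, h2, fun c hc w hw => hN' (Set.add_mem_add hc
      (htN fun i _ => Set.mem_iInter.1 (h3 (hw i)) i))⟩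
  choose N hN hNc hNO using hN
  obtain ⟨u, hu, hu'⟩ := IsTopologicalAddGroup.exists_antitone_basis_nhds_zero X
  have hm : ∀ k, ∃ m, u m ⊆ N k := fun k => (hu.mem_iff.1 (hN k))
  choose m hm using hm
  let n : ℕ → ℕ := fun k => k + ∑ i ∈ Finset.range (k + 1), m i
  have hn1 : ∀ k, n k + 1 ≤ n (k + 1) := fun k => by
    simp only [n, Finset.sum_range_succ _ (k + 1)]; omega
  have hn2 : ∀ k, m k ≤ n k := fun k => by
    simp only [n, Finset.sum_range_succ _ k]; omega
  have hn3 : ∀ k, k ≤ n k := fun k => by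
    simp only [n]; omega
  let W : ℕ → Set X := fun k => u (n k)
  have hWn : ∀ k, W k ∈ 𝓝 (0 : X) := fun k => hu.mem _
  have hW0 : ∀ k, (0 : X) ∈ W k := fun k => mem_of_mem_nhds (hWn k)
  have hWa : Antitone W := antitone_nat_of_succ_le fun k =>
    hu.antitone ((Nat.le_succ _).trans (hn1 k))
  have hWadd : ∀ k, W (k + 1) + W (k + 1) ⊆ W k := fun k =>
    (Set.add_subset_add (hu.antitone (hn1 k)) (hu.antitone (hn1 k))).trans (hu' _)
  have hWN : ∀ k, W k ⊆ N k := fun k => (hu.antitone (hn2 k)).trans (hm k)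
  have hε : ∀ j : ℕ, ∃ ε : ℝ, 0 < ε ∧ ε ≤ 1 ∧
      ∀ a : K, ‖a‖ ≤ j → (a * (ε : K)) • y j ∈ W (j + 1) := by
    intro j
    have hc : Continuous fun a : K => a • y j := continuous_id.smul continuous_const
    have h1 : (fun a : K => a • y j) ⁻¹' W (j + 1) ∈ 𝓝 (0 : K) :=
      hc.continuousAt.preimage_mem_nhds (by simpa using hWn (j + 1))
    obtain ⟨δ, hδ, hδ'⟩ := Metric.mem_nhds_iff.1 h1
    refine ⟨min 1 (δ / (j + 1)), by positivity, min_le_left _ _, fun a ha => hδ' ?_⟩
    rw [mem_ball_zero_iff, norm_mul, RCLike.norm_ofReal, abs_of_nonneg (by positivity)]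
    calc ‖a‖ * min 1 (δ / (j + 1)) ≤ j * (δ / (j + 1)) := by
          gcongr; exact min_le_right _ _
      _ < (j + 1) * (δ / (j + 1)) := by gcongr; linarith
      _ = δ := by field_simp
  choose ε hε0 hε1 hε using hε
  let f : lp (fun _ : ℕ => K) 2 → ℕ → X := fun a j => (a j * (ε j : K)) • y j
  have hD : ∀ (a : lp (fun _ : ℕ => K) 2) j, ‖a j‖ ≤ ‖a‖ := fun a j =>
    lp.norm_apply_le_norm (by norm_num) a j
  have hfW : ∀ a (k : ℕ), ‖a‖ ≤ k → ∀ j, k ≤ j → f a j ∈ W (j + 1) := by
    intro a k hk j hj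
    exact hε j _ ((hD a j).trans (hk.trans (by exact_mod_cast hj)))
  have hev : ∀ a : lp (fun _ : ℕ => K) 2, ∀ᶠ k : ℕ in atTop, ‖a‖ ≤ k := fun a =>
    (eventually_ge_atTop ⌈‖a‖⌉₊).mono fun k hk => (Nat.le_ceil _).trans (by exact_mod_cast hk)
  have hsum : ∀ a, Summable (f a) := by
    intro a
    refine summable_iff_vanishing.2 fun e he => ?_
    obtain ⟨i, hi⟩ := hu.mem_iff.1 he
    obtain ⟨k, hk, hik⟩ := ((hev a).and (eventually_ge_atTop i)).exists
    refine ⟨Finset.range k, fun t ht => hi (hu.antitone (hik.trans (hn3 k)) ?_)⟩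
    have h1 : ∀ j ∈ t, k ≤ j := fun j hj => by
      by_contra h
      exact Finset.disjoint_left.1 ht hj (Finset.mem_range.2 (not_le.1 h))
    exact sum_mem_of_halving W hW0 hWa hWadd (f a) t (fun j hj => hfW a k hk j (h1 j hj)) k h1
  let Φ : lp (fun _ : ℕ => K) 2 →ₗ[K] X :=
    { toFun := fun a => ∑' j, f a j
      map_add' := fun a b => by
        rw [← (hsum a).tsum_add (hsum b)]
        refine tsum_congr fun j => ?_
        simp only [f, lp.coeFn_add, Pi.add_apply, add_mul, add_smul]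
      map_smul' := fun c a => by
        rw [RingHom.id_apply, ← (hsum a).tsum_const_smul c]
        refine tsum_congr fun j => ?_
        simp only [f, lp.coeFn_smul, Pi.smul_apply, smul_eq_mul, mul_smul] }
  have htail : ∀ a (k : ℕ), ‖a‖ ≤ k → Φ a - ∑ j ∈ Finset.range k, f a j ∈ closure (W k) := by
    intro a k hk
    have h1 : Tendsto (fun l => ∑ j ∈ Finset.range l, f a j - ∑ j ∈ Finset.range k, f a j) atTop
        (𝓝 (Φ a - ∑ j ∈ Finset.range k, f a j)) :=
      (hsum a).hasSum.tendsto_sum_nat.sub_const _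
    refine mem_closure_of_tendsto h1 ((eventually_ge_atTop k).mono fun l hl => ?_)
    rw [← Finset.sum_Ico_eq_sub _ hl]
    exact sum_mem_of_halving W hW0 hWa hWadd (f a) _
      (fun j hj => hfW a k hk j (Finset.mem_Ico.1 hj).1) k fun j hj => (Finset.mem_Ico.1 hj).1
  have hcont : Continuous Φ := by
    refine continuous_of_continuousAt_zero Φ ?_
    rw [ContinuousAt, map_zero]
    intro e he
    obtain ⟨e1, he1, hadd⟩ := exists_nhds_zero_half he
    obtain ⟨e2, he2, he2c, he21⟩ := exists_mem_nhds_isClosed_subset he1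
    obtain ⟨i, hi⟩ := hu.mem_iff.1 he2
    have hWe : closure (W (i + 1)) ⊆ e1 :=
      (he2c.closure_subset_iff.2 ((hu.antitone ((Nat.le_succ i).trans (hn3 _))).trans hi)).trans
        he21
    have hcj : ∀ j, Continuous fun a : lp (fun _ : ℕ => K) 2 => a j := fun j =>
      (LipschitzWith.of_dist_le_mul (K := 1) fun a b => by
        have := hD (a - b) j
        rw [lp.coeFn_sub, Pi.sub_apply] at this
        simpa [dist_eq_norm] using this).continuous
    have hh : Continuous fun a => ∑ j ∈ Finset.range (i + 1), f a j :=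
      continuous_finsetSum _ fun j _ => ((hcj j).mul continuous_const).smul continuous_const
    have h0 : ∑ j ∈ Finset.range (i + 1), f 0 j = 0 := by simp [f]
    have h1 : ∀ᶠ a in 𝓝 (0 : lp (fun _ : ℕ => K) 2), ∑ j ∈ Finset.range (i + 1), f a j ∈ e1 :=
      hh.continuousAt.preimage_mem_nhds (by rw [h0]; exact he1)
    have h2 : ∀ᶠ a in 𝓝 (0 : lp (fun _ : ℕ => K) 2), ‖a‖ ≤ ((i + 1 : ℕ) : ℝ) := by
      filter_upwards [Metric.closedBall_mem_nhds (0 : lp (fun _ : ℕ => K) 2) zero_lt_one] with a ha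
      rw [mem_closedBall_zero_iff] at ha
      refine ha.trans ?_
      exact_mod_cast Nat.succ_le_succ (Nat.zero_le i)
    rw [mem_map]
    filter_upwards [h1, h2] with a ha1 ha2
    have := hadd _ ha1 _ (hWe (htail a _ ha2))
    rwa [add_sub_cancel] at this
  have hevD : ∀ D : ℝ, ∀ᶠ k : ℕ in atTop, D ≤ k := fun D =>
    (eventually_ge_atTop ⌈D⌉₊).mono fun k hk => (Nat.le_ceil _).trans (by exact_mod_cast hk)
  have hhead : ∀ (a : ℕ → lp (fun _ : ℕ => K) 2) (D : ℝ), (∀ i, ‖a i‖ ≤ D) → a ≠ 0 →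
      ∀ᶠ k in atTop, (fun i : Fin k => ∑ j ∈ Finset.range k, f (a i) j) ∈ C k := by
    intro a D haD ha
    obtain ⟨r, i, hi⟩ : ∃ r i, a r i ≠ 0 := by
      by_contra h
      push Not at h
      exact ha (funext fun r => lp.ext (funext (h r)))
    have hpos : 0 < ‖a r i * (ε i : K)‖ :=
      norm_pos_iff.2 (mul_ne_zero hi (by exact_mod_cast (hε0 i).ne'))
    have h1 : ∀ᶠ k : ℕ in atTop, (1 : ℝ) / (k + 1) ≤ ‖a r i * (ε i : K)‖ :=
      (tendsto_one_div_add_atTop_nhds_zero_nat.eventually (gt_mem_nhds hpos)).mono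
        fun k hk => hk.le
    filter_upwards [h1, eventually_gt_atTop i, eventually_gt_atTop r, hevD D] with k hk1 hk2 hk4 hk3
    refine ⟨fun p => a p.1 p.2 * (ε p.2 : K), ⟨?_, ?_⟩, ?_⟩
    · rw [mem_closedBall_zero_iff, pi_norm_le_iff_of_nonneg (by positivity)]
      rintro ⟨s, j⟩
      rw [norm_mul, RCLike.norm_ofReal, abs_of_pos (hε0 j)]
      calc ‖a s j‖ * ε j ≤ ‖a s j‖ := mul_le_of_le_one_right (norm_nonneg _) (hε1 j)
        _ ≤ ‖a s‖ := hD (a s) j
        _ ≤ D := haD s
        _ ≤ k := hk3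
    · rw [mem_ball_zero_iff, not_lt]
      exact hk1.trans (norm_le_pi_norm
        (fun p : Fin k × Fin k => a p.1 p.2 * (ε p.2 : K)) (⟨r, hk4⟩, ⟨i, hk2⟩))
    · exact funext fun s => Fin.sum_univ_eq_sum_range (f (a s)) k
  refine ⟨⟨Φ, hcont⟩, fun k => ⟨lp.single 2 k ((ε k : K))⁻¹, ?_⟩, fun a D haD ha => ?_⟩
  · show ∑' j, f _ j = _
    rw [tsum_eq_single k]
    · have : (ε k : K) ≠ 0 := by exact_mod_cast (hε0 k).ne'
      simp [f, this]
    · intro j hj
      simp [f, lp.single_apply, hj]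
  · filter_upwards [hevD D, hhead a D haD ha] with k h1 h2
    have := hNO k _ h2 (fun i : Fin k => Φ (a i) - ∑ j ∈ Finset.range k, f (a i) j) fun i =>
      (hNc k).closure_subset_iff.2 (hWN k) (htail (a i) k ((haD i).trans h1))
    have h3 : ((fun i : Fin k => ∑ j ∈ Finset.range k, f (a i) j) +
        fun i : Fin k => Φ (a i) - ∑ j ∈ Finset.range k, f (a i) j) =
        fun i : Fin k => Φ (a i) := funext fun i => add_sub_cancel _ _
    rw [h3] at this
    exact this

theorem dense_free (K : Type) [RCLike K] (X : Type) [AddCommGroup X] [Module K X]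
    [TopologicalSpace X] [IsTopologicalAddGroup X] [ContinuousSMul K X] [Nontrivial X]
    (T : Module.End K X) (hT : Continuous T) (x : X)
    (hx : Dense (Set.range fun n : ℕ => (T ^ n) x)) (k : ℕ) :
    Dense {y : ℕ → X | ∀ b : Fin k × Fin k → K, b ≠ 0 → Dense (Set.range fun n : ℕ =>
      (T ^ n) (∑ i : Fin k, (T ^ (i : ℕ)) (∑ j : Fin k, b (i, j) • y j)))} := by
  classical
  refine dense_iff_inter_open.2 fun U hU ⟨z, hz⟩ => ?_
  obtain ⟨I, u, hu, hIU⟩ := isOpen_pi_iff.1 hU z hz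
  have hg : ∀ j N : ℕ, ∃ n, N ≤ n ∧ (j ∈ I → (T ^ n) x ∈ u j) := by
    intro j N
    by_cases hj : j ∈ I
    · have h := hc_aeval T hT x hx (Polynomial.X ^ N) (pow_ne_zero _ Polynomial.X_ne_zero)
      obtain ⟨_, ⟨n, rfl⟩, hn⟩ := h.exists_mem_open (hu j hj).1 ⟨_, (hu j hj).2⟩
      refine ⟨n + N, Nat.le_add_left _ _, fun _ => ?_⟩
      simpa [pow_add] using hn
    · exact ⟨N, le_rfl, fun h => absurd h hj⟩
  choose g hg1 hg2 using hg
  let n : ℕ → ℕ := fun j => Nat.rec (g 0 0) (fun j r => g (j + 1) (r + k + 1)) j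
  have hn0 : ∀ j, n j + k + 1 ≤ n (j + 1) := fun j => hg1 (j + 1) (n j + k + 1)
  have hn : Monotone n := monotone_nat_of_le_succ fun j => by have := hn0 j; omega
  have hn1 : ∀ p q : Fin k × Fin k, p.1 + n p.2 = q.1 + n q.2 → p = q := by
    have h1 : ∀ p q : Fin k × Fin k, p.1 + n p.2 = q.1 + n q.2 → ¬ (p.2 : ℕ) < q.2 := by
      intro p q h hlt
      have h2 := hn (Nat.succ_le_of_lt hlt)
      have h3 := hn0 p.2
      have h4 := p.1.2
      simp only [Nat.succ_eq_add_one] at h2
      omega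
    intro p q h
    have h2 : (p.2 : ℕ) = q.2 := le_antisymm (not_lt.1 (h1 q p h.symm)) (not_lt.1 (h1 p q h))
    rw [h2] at h
    exact Prod.ext (Fin.ext (by omega)) (Fin.ext h2)
  have hn2 : ∀ j ∈ I, (T ^ n j) x ∈ u j := by
    intro j hj
    cases j with
    | zero => exact hg2 0 0 hj
    | succ j => exact hg2 (j + 1) (n j + k + 1) hj
  refine ⟨fun j => (T ^ n j) x, hIU fun j hj => hn2 j hj, fun b hb => ?_⟩
  have h := hc_aeval T hT x hx
    (∑ p : Fin k × Fin k, Polynomial.monomial (p.1 + n p.2) (b p)) ?_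
  · have h2 : Polynomial.aeval T (∑ p : Fin k × Fin k, Polynomial.monomial (p.1 + n p.2) (b p)) x =
        ∑ i : Fin k, (T ^ (i : ℕ)) (∑ j : Fin k, b (i, j) • (T ^ n j) x) := by
      simp [map_sum, Polynomial.aeval_monomial, Algebra.algebraMap_eq_smul_one,
        Fintype.sum_prod_type, pow_add]
    rwa [h2] at h
  · intro h0
    refine hb (funext fun q => ?_)
    have := congrArg (fun p => Polynomial.coeff p (q.1 + n q.2)) h0
    simp only [Polynomial.finsetSum_coeff, Polynomial.coeff_monomial, Polynomial.coeff_zero]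
      at this
    rw [Finset.sum_eq_single q] at this
    · simpa using this
    · intro p _ hp
      rw [if_neg fun h => hp (hn1 p q h)]
    · simp

theorem common (K : Type) [RCLike K] (X : Type) [AddCommGroup X] [Module K X] [UniformSpace X]
    [IsUniformAddGroup X] [CompleteSpace X] [ContinuousSMul K X]
    [TopologicalSpace.MetrizableSpace X] [Nontrivial X] (T : ℕ → Module.End K X)
    (hT : ∀ l, Continuous (T l)) (hx : ∀ l, ∃ x, Dense (Set.range fun n : ℕ => (T l ^ n) x)) :
    ∃ J : lp (fun _ : ℕ => K) 2 →L[K] X, Function.Injective J ∧ DenseRange J ∧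
      Module.rank K (LinearMap.range (J : lp (fun _ : ℕ => K) 2 →ₗ[K] X)) = Module.rank K X ∧
      ∀ (l d : ℕ) (a : Fin d → lp (fun _ : ℕ => K) 2), a ≠ 0 →
        Dense (Set.range fun n : ℕ => (T l ^ n) (∑ i : Fin d, (T l ^ (i : ℕ)) (J (a i)))) := by
  classical
  choose x hx using hx
  have : SeparableSpace X := ⟨⟨_, Set.countable_range _, hx 0⟩⟩
  have : SecondCountableTopology X := by
    let := pseudoMetrizableSpaceUniformity X
    have := pseudoMetrizableSpaceUniformity_countably_generated X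
    exact UniformSpace.secondCountable_of_separable X
  have : (uniformity X).IsCountablyGenerated := IsUniformAddGroup.uniformity_countably_generated
  have : BaireSpace (ℕ → X) := inferInstance
  obtain ⟨B, hBc, hB0, hB⟩ := exists_countable_basis X
  have hBne : B.Nonempty := by
    obtain ⟨U, hU, -⟩ := hB.exists_subset_of_mem_open (Set.mem_univ (0 : X)) isOpen_univ
    exact ⟨U, hU⟩
  obtain ⟨V, hV⟩ := hBc.exists_eq_range hBne
  have hVB : ∀ i, V i ∈ B := fun i => hV ▸ ⟨i, rfl⟩
  have hVne : ∀ i, (V i).Nonempty := fun i =>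
    Set.nonempty_iff_ne_empty.2 fun h => hB0 (h ▸ hVB i)
  let O : ℕ → ℕ → Set X := fun l k =>
    ⋂ i ∈ Finset.range (k + 1), ⋃ m : ℕ, (T l ^ m) ⁻¹' V i
  have hO : ∀ l k, IsOpen (O l k) := fun l k =>
    isOpen_biInter_finset fun i _ => isOpen_iUnion fun m =>
      (hB.isOpen (hVB i)).preimage (continuous_pow_end (T l) (hT l) m)
  have hO1 : ∀ l z, Dense (Set.range fun n : ℕ => (T l ^ n) z) → ∀ k, z ∈ O l k := by
    intro l z hz k
    simp only [O, Set.mem_iInter, Set.mem_iUnion]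
    intro i _
    obtain ⟨_, h1, ⟨m, rfl⟩⟩ := hB.dense_iff.1 hz (V i) (hVB i) (hVne i)
    exact ⟨m, h1⟩
  have hO2 : ∀ l z, (∀ᶠ k in atTop, z ∈ O l k) →
      Dense (Set.range fun n : ℕ => (T l ^ n) z) := by
    intro l z hz
    refine hB.dense_iff.2 fun o ho _ => ?_
    rw [hV] at ho
    obtain ⟨i, rfl⟩ := ho
    obtain ⟨k, hk, hik⟩ := (hz.and (eventually_ge_atTop i)).exists
    simp only [O, Set.mem_iInter, Set.mem_iUnion] at hk
    obtain ⟨m, hm⟩ := hk i (Finset.mem_range.2 (Nat.lt_succ_of_le hik))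
    exact ⟨_, hm, m, rfl⟩
  let G : ℕ × ℕ → Set (ℕ → X) := fun p =>
    {y | ∀ b ∈ Ann K p.2, ∑ i : Fin p.2, (T p.1 ^ (i : ℕ)) (∑ j : Fin p.2, b (i, j) • y j) ∈
      O p.1 p.2} ∩ {y | ∃ j, y j ∈ V p.1}
  have hGo : ∀ p, IsOpen (G p) := by
    rintro ⟨l, k⟩
    refine IsOpen.inter ?_ ?_
    · refine isOpen_iff_mem_nhds.2 fun y hy => ?_
      refine (isCompact_Ann K k).eventually_forall_of_forall_eventually
        (P := fun (y : ℕ → X) (b : Fin k × Fin k → K) =>
          ∑ i : Fin k, (T l ^ (i : ℕ)) (∑ j : Fin k, b (i, j) • y j) ∈ O l k) fun b hb => ?_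
      have hc : Continuous fun z : (ℕ → X) × (Fin k × Fin k → K) =>
          ∑ i : Fin k, (T l ^ (i : ℕ)) (∑ j : Fin k, z.2 (i, j) • z.1 j) :=
        continuous_finsetSum _ fun i _ => (continuous_pow_end (T l) (hT l) i).comp
          (continuous_finsetSum _ fun j _ => ((continuous_apply (i, j)).comp continuous_snd).smul
            ((continuous_apply (j : ℕ)).comp continuous_fst))
      exact hc.continuousAt.preimage_mem_nhds ((hO l k).mem_nhds (hy b hb))
    · rw [Set.ofPred_exists]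
      exact isOpen_iUnion fun j => (hB.isOpen (hVB l)).preimage (continuous_apply j)
  have hGd : ∀ p, Dense (G p) := by
    rintro ⟨l, k⟩
    refine Dense.inter_of_isOpen_right ?_ ?_ ?_
    · refine (dense_free K X (T l) (hT l) (x l) (hx l) k).mono fun y hy b hb => ?_
      refine hO1 l _ (hy b ?_) k
      rintro rfl
      exact hb.2 (Metric.mem_ball_self (by positivity))
    · refine dense_iff_inter_open.2 fun U hU ⟨z, hz⟩ => ?_
      obtain ⟨I, u, hu, hIU⟩ := isOpen_pi_iff.1 hU z hz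
      obtain ⟨j, hj⟩ := I.exists_notMem
      obtain ⟨w, hw⟩ := hVne l
      refine ⟨Function.update z j w, hIU fun i hi => ?_, j, by simpa using hw⟩
      rw [Function.update_of_ne (by rintro rfl; exact hj hi)]
      exact (hu i hi).2
    · rw [Set.ofPred_exists]
      exact isOpen_iUnion fun j => (hB.isOpen (hVB l)).preimage (continuous_apply j)
  obtain ⟨y, hy⟩ := (dense_iInter_of_isOpen hGo hGd).nonempty
  rw [Set.mem_iInter] at hy
  obtain ⟨J, hJ1, hJ2⟩ := range_of_seq K X (fun k => ⋂ l ∈ Finset.range (k + 1),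
      (fun z : Fin k → X => ∑ i : Fin k, (T l ^ (i : ℕ)) (z i)) ⁻¹' O l k)
    (fun k => isOpen_biInter_finset fun l _ => (hO l k).preimage
      (continuous_finsetSum _ fun (i : Fin k) _ =>
        (continuous_pow_end (T l) (hT l) (i : ℕ)).comp (continuous_apply i))) y (fun k b hb => by
      simp only [Set.mem_iInter]
      exact fun l _ => (hy (l, k)).1 b hb)
  have hHC : ∀ (l d : ℕ) (a : Fin d → lp (fun _ : ℕ => K) 2), a ≠ 0 →
      Dense (Set.range fun n : ℕ => (T l ^ n) (∑ i : Fin d, (T l ^ (i : ℕ)) (J (a i)))) := by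
    intro l d a ha
    let a' : ℕ → lp (fun _ : ℕ => K) 2 := fun i => if h : i < d then a ⟨i, h⟩ else 0
    have hb : ∀ i, ‖a' i‖ ≤ ‖a‖ := fun i => by
      by_cases h : i < d
      · simp only [a', dif_pos h]
        exact norm_le_pi_norm a _
      · simp only [a', dif_neg h, norm_zero]
        exact norm_nonneg _
    have ha' : a' ≠ 0 := fun h => ha (funext fun i => by
      have := congrFun h i
      simpa [a'] using this)
    refine hO2 l _ ?_
    filter_upwards [hJ2 a' _ hb ha', eventually_ge_atTop l, eventually_ge_atTop d] with k h1 h2 h3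
    simp only [Set.mem_iInter] at h1
    have h4 := h1 l (Finset.mem_range.2 (Nat.lt_succ_of_le h2))
    have h5 : ∑ i : Fin k, (T l ^ (i : ℕ)) (J (a' i)) =
        ∑ i : Fin d, (T l ^ (i : ℕ)) (J (a i)) := by
      rw [Fin.sum_univ_eq_sum_range (fun i => (T l ^ i) (J (a' i))) k,
        ← Finset.sum_subset (Finset.range_mono h3) (fun i _ hi => by
          simp only [a', dif_neg (fun h => hi (Finset.mem_range.2 h)), map_zero]),
        ← Fin.sum_univ_eq_sum_range (fun i => (T l ^ i) (J (a' i))) d]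
      exact Finset.sum_congr rfl fun i _ => by simp [a']
    rw [← h5]
    exact h4
  have hinj : Function.Injective J := by
    rw [injective_iff_map_eq_zero]
    intro a ha
    by_contra h
    have h1 := hHC 0 1 (fun _ => a) fun h' => h (congrFun h' 0)
    rw [ha] at h1
    simp only [map_zero, Finset.sum_const_zero, Set.range_const] at h1
    obtain ⟨y, hy⟩ := exists_ne (0 : X)
    have := h1 y
    rw [closure_singleton] at this
    exact hy this
  refine ⟨J, hinj, hB.dense_iff.2 fun o ho _ => ?_, ?_, hHC⟩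
  · rw [hV] at ho
    obtain ⟨i, rfl⟩ := ho
    obtain ⟨j, hj⟩ := (hy (i, 0)).2
    exact ⟨_, hj, hJ1 j⟩
  · refine le_antisymm (Submodule.rank_le _) ?_
    rw [rank_range_of_injective _ hinj]
    refine (rank_le_card K X).trans (le_trans ?_ (continuum_le_rank_l2 K))
    have h1 : Function.Injective fun z : X => {i | z ∈ V i} := by
      intro y z hyz
      refine hB.eq_iff.2 fun s hs => ?_
      rw [hV] at hs
      obtain ⟨i, rfl⟩ := hs
      exact Set.ext_iff.1 hyz i
    have := Cardinal.mk_le_of_injective h1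
    rwa [Cardinal.mk_set, Cardinal.mk_nat, Cardinal.two_power_aleph0] at this

end Pool.Agent.P.MP_fd6048_an
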