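import Pool.Agent.P.MP_fd6048_an.Bourdon

set_option autoImplicit false

namespace Pool.Agent.P.MP_fd6048_an

open Filter Topology Cardinal TopologicalSpace Pointwise

theorem sum_mem_of_halving {X : Type*} [AddCommGroup X] (W : ℕ → Set X) (h0 : ∀ k, 0 ∈ W k)
    (hanti : Antitone W) (hadd : ∀ k, W (k + 1) + W (k + 1) ⊆ W k) (f : ℕ → X) (t : Finset ℕ) :
    (∀ j ∈ t, f j ∈ W (j + 1)) → ∀ k, (∀ j ∈ t, k ≤ j) → ∑ j ∈ t, f j ∈ W k := by
  induction t using Finset.induction_on_min with
  | empty => intro _ k _; simpa using h0 k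
  | insert a s ha ih =>
    intro hf k hk
    have hna : a ∉ s := fun h => lt_irrefl _ (ha a h)
    rw [Finset.sum_insert hna]
    refine hanti (hk a (Finset.mem_insert_self _ _)) (hadd a (Set.add_mem_add
      (hf a (Finset.mem_insert_self _ _)) (ih (fun j hj => hf j (Finset.mem_insert_of_mem hj))
        (a + 1) fun j hj => ha j hj)))

/-- bounded scalar sequences -/
def Bdd (K : Type) [RCLike K] : Submodule K (ℕ → K) where
  carrier := {a | ∃ C : ℝ, ∀ j, ‖a j‖ ≤ C}
  zero_mem' := ⟨0, fun j => by simp⟩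
  add_mem' := by
    rintro a b ⟨C, hC⟩ ⟨D, hD⟩
    exact ⟨C + D, fun j => (norm_add_le _ _).trans (add_le_add (hC j) (hD j))⟩
  smul_mem' := by
    rintro c a ⟨C, hC⟩
    refine ⟨‖c‖ * C, fun j => ?_⟩
    rw [Pi.smul_apply, norm_smul]
    exact mul_le_mul_of_nonneg_left (hC j) (norm_nonneg _)

theorem continuum_le_rank_Bdd (K : Type) [RCLike K] : 𝔠 ≤ Module.rank K (Bdd K) := by
  let v : Set.Icc (0 : ℝ) 1 → Bdd K := fun t => ⟨fun j => ((t : ℝ) : K) ^ j, 1, fun j => by
    rw [norm_pow, RCLike.norm_ofReal, abs_of_nonneg t.2.1]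
    exact pow_le_one₀ t.2.1 t.2.2⟩
  have hli : LinearIndependent K v := by
    refine LinearIndependent.of_comp (Bdd K).subtype ?_
    have h := (linearIndependent_monoidHom (Multiplicative ℕ) K).comp
      (fun t : Set.Icc (0 : ℝ) 1 => powersHom K ((t : ℝ) : K)) (by
        intro s t hst
        have := (powersHom K).injective hst
        exact Subtype.ext (RCLike.ofReal_injective this))
    exact h
  have := hli.cardinal_le_rank
  rwa [Cardinal.mk_Icc_real zero_lt_one] at this

theorem main (K : Type) [RCLike K] (X : Type) [AddCommGroup X] [Module K X] [UniformSpace X]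
    [IsUniformAddGroup X] [CompleteSpace X] [ContinuousSMul K X]
    [TopologicalSpace.MetrizableSpace X] [Nontrivial X] (T : Module.End K X) (hT : Continuous T)
    (x : X) (hx : Dense (Set.range fun n : ℕ => (T ^ n) x)) :
    ∃ M : Submodule K X, Dense (M : Set X) ∧
      (∀ z ∈ M, z ≠ 0 → Dense (Set.range fun n : ℕ => (T ^ n) z)) ∧
      Module.rank K M = Module.rank K X := by
  classical
  have : SeparableSpace X := ⟨⟨_, Set.countable_range _, hx⟩⟩
  have : SecondCountableTopology X := by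
    let := pseudoMetrizableSpaceUniformity X
    have := pseudoMetrizableSpaceUniformity_countably_generated X
    exact UniformSpace.secondCountable_of_separable X
  obtain ⟨B, hBc, hB0, hB⟩ := exists_countable_basis X
  have hBne : B.Nonempty := by
    obtain ⟨U, hU, -⟩ := hB.exists_subset_of_mem_open (Set.mem_univ (0 : X)) isOpen_univ
    exact ⟨U, hU⟩
  obtain ⟨V, hV⟩ := hBc.exists_eq_range hBne
  have hVB : ∀ i, V i ∈ B := fun i => hV ▸ ⟨i, rfl⟩
  let O : ℕ → Set X := fun k => ⋂ i ∈ Finset.range (k + 1), ⋃ m : ℕ, (T ^ m) ⁻¹' V i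
  have hO : ∀ k, IsOpen (O k) := fun k =>
    isOpen_biInter_finset fun i _ => isOpen_iUnion fun m =>
      (hB.isOpen (hVB i)).preimage (continuous_pow_end T hT m)
  have hO1 : ∀ z, Dense (Set.range fun n : ℕ => (T ^ n) z) → ∀ k, z ∈ O k := by
    intro z hz k
    simp only [O, Set.mem_iInter, Set.mem_iUnion]
    intro i _
    obtain ⟨_, h1, ⟨m, rfl⟩⟩ := hB.dense_iff.1 hz (V i) (hVB i)
      (Set.nonempty_iff_ne_empty.2 fun h => hB0 (h ▸ hVB i))
    exact ⟨m, h1⟩
  have hO2 : ∀ z, (∀ᶠ k in atTop, z ∈ O k) → Dense (Set.range fun n : ℕ => (T ^ n) z) := by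
    intro z hz
    refine hB.dense_iff.2 fun o ho _ => ?_
    rw [hV] at ho
    obtain ⟨i, rfl⟩ := ho
    obtain ⟨k, hk, hik⟩ := (hz.and (eventually_ge_atTop i)).exists
    simp only [O, Set.mem_iInter, Set.mem_iUnion] at hk
    obtain ⟨m, hm⟩ := hk i (Finset.mem_range.2 (Nat.lt_succ_of_le hik))
    exact ⟨_, hm, m, rfl⟩
  let C : ℕ → Set X := fun k => (fun b : Fin k → K => ∑ j : Fin k, b j • (T ^ (j : ℕ)) x) ''
    (Metric.closedBall 0 k \ Metric.ball 0 (1 / (k + 1)))
  have hC : ∀ k, IsCompact (C k) := fun k =>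
    ((isCompact_closedBall _ _).diff Metric.isOpen_ball).image
      (continuous_finsetSum _ fun j _ => (continuous_apply j).smul continuous_const)
  have hCO : ∀ k, C k ⊆ O k := by
    rintro k _ ⟨b, hb, rfl⟩
    refine hO1 _ (hc_sum T hT x hx k b ?_) k
    rintro rfl
    exact hb.2 (Metric.mem_ball_self (by positivity))
  have hN : ∀ k, ∃ N ∈ 𝓝 (0 : X), IsClosed N ∧ C k + N ⊆ O k := by
    intro k
    obtain ⟨N, hN, hN'⟩ := compact_open_separated_add_right (hC k) (hO k) (hCO k)
    obtain ⟨N', h1, h2, h3⟩ := exists_mem_nhds_isClosed_subset hN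
    exact ⟨N', h1, h2, (Set.add_subset_add_left h3).trans hN'⟩
  choose N hN hNc hNO using hN
  obtain ⟨u, hu, hu'⟩ := IsTopologicalAddGroup.exists_antitone_basis_nhds_zero X
  have hm : ∀ k, ∃ m, u m ⊆ N k := fun k => (hu.mem_iff.1 (hN k))
  choose m hm using hm
  let n : ℕ → ℕ := fun k => k + ∑ i ∈ Finset.range (k + 1), m i
  have hn1 : ∀ k, n k + 1 ≤ n (k + 1) := fun k => by
    simp only [n, Finset.sum_range_succ _ (k + 1)]; omega
  have hn2 : ∀ k, m k ≤ n k := fun k => by
    simp only [n, Finset.sum_range_succ _ k]; omega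
  have hn3 : ∀ k, k ≤ n k := fun k => by
    simp only [n]; omega
  let W : ℕ → Set X := fun k => u (n k)
  have hWn : ∀ k, W k ∈ 𝓝 (0 : X) := fun k => hu.mem _
  have hW0 : ∀ k, (0 : X) ∈ W k := fun k => mem_of_mem_nhds (hWn k)
  have hWa : Antitone W := antitone_nat_of_succ_le fun k =>
    hu.antitone ((Nat.le_succ _).trans (hn1 k))
  have hWadd : ∀ k, W (k + 1) + W (k + 1) ⊆ W k := fun k =>
    (Set.add_subset_add (hu.antitone (hn1 k)) (hu.antitone (hn1 k))).trans (hu' _)
  have hWN : ∀ k, W k ⊆ N k := fun k => (hu.antitone (hn2 k)).trans (hm k)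
  have hε : ∀ j : ℕ, ∃ ε : ℝ, 0 < ε ∧ ε ≤ 1 ∧
      ∀ a : K, ‖a‖ ≤ j → (a * (ε : K)) • (T ^ j) x ∈ W (j + 1) := by
    intro j
    have hc : Continuous fun a : K => a • (T ^ j) x := continuous_id.smul continuous_const
    have h1 : (fun a : K => a • (T ^ j) x) ⁻¹' W (j + 1) ∈ 𝓝 (0 : K) :=
      hc.continuousAt.preimage_mem_nhds (by simpa using hWn (j + 1))
    obtain ⟨δ, hδ, hδ'⟩ := Metric.mem_nhds_iff.1 h1
    refine ⟨min 1 (δ / (j + 1)), by positivity, min_le_left _ _, fun a ha => hδ' ?_⟩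
    rw [mem_ball_zero_iff, norm_mul, RCLike.norm_ofReal, abs_of_nonneg (by positivity)]
    calc ‖a‖ * min 1 (δ / (j + 1)) ≤ j * (δ / (j + 1)) := by
          gcongr; exact min_le_right _ _
      _ < (j + 1) * (δ / (j + 1)) := by gcongr; linarith
      _ = δ := by field_simp
  choose ε hε0 hε1 hε using hε
  let f : Bdd K → ℕ → X := fun a j => (a.1 j * (ε j : K)) • (T ^ j) x
  have hfW : ∀ a, ∀ᶠ k in atTop, ∀ j, k ≤ j → f a j ∈ W (j + 1) := by
    intro a
    obtain ⟨D, hD⟩ := a.2
    refine (eventually_ge_atTop ⌈D⌉₊).mono fun k hk j hj => hε j _ ((hD j).trans ?_)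
    exact (Nat.le_ceil D).trans (by exact_mod_cast hk.trans hj)
  have hsum : ∀ a, Summable (f a) := by
    intro a
    refine summable_iff_vanishing.2 fun e he => ?_
    obtain ⟨i, hi⟩ := hu.mem_iff.1 he
    obtain ⟨k, hk, hik⟩ := ((hfW a).and (eventually_ge_atTop i)).exists
    refine ⟨Finset.range k, fun t ht => hi (hu.antitone (hik.trans (hn3 k)) ?_)⟩
    have h1 : ∀ j ∈ t, k ≤ j := fun j hj => by
      by_contra h
      exact Finset.disjoint_left.1 ht hj (Finset.mem_range.2 (not_le.1 h))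
    exact sum_mem_of_halving W hW0 hWa hWadd (f a) t (fun j hj => hk j (h1 j hj)) k h1
  let Φ : Bdd K →ₗ[K] X :=
    { toFun := fun a => ∑' j, f a j
      map_add' := fun a b => by
        rw [← (hsum a).tsum_add (hsum b)]
        refine tsum_congr fun j => ?_
        simp only [f, Submodule.coe_add, Pi.add_apply, add_mul, add_smul]
      map_smul' := fun c a => by
        rw [RingHom.id_apply, ← (hsum a).tsum_const_smul c]
        refine tsum_congr fun j => ?_
        simp only [f, Submodule.coe_smul, Pi.smul_apply, smul_eq_mul, mul_smul] }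
  have htail : ∀ a, ∀ᶠ k in atTop, Φ a - ∑ j ∈ Finset.range k, f a j ∈ N k := by
    intro a
    refine (hfW a).mono fun k hk => ?_
    have h1 : Tendsto (fun l => ∑ j ∈ Finset.range l, f a j - ∑ j ∈ Finset.range k, f a j) atTop
        (𝓝 (Φ a - ∑ j ∈ Finset.range k, f a j)) :=
      (hsum a).hasSum.tendsto_sum_nat.sub_const _
    refine (hNc k).mem_of_tendsto h1 ((eventually_ge_atTop k).mono fun l hl => ?_)
    rw [← Finset.sum_Ico_eq_sub _ hl]
    exact hWN k (sum_mem_of_halving W hW0 hWa hWadd (f a) _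
      (fun j hj => hk j (Finset.mem_Ico.1 hj).1) k fun j hj => (Finset.mem_Ico.1 hj).1)
  have hhead : ∀ a, a ≠ 0 → ∀ᶠ k in atTop, ∑ j ∈ Finset.range k, f a j ∈ C k := by
    intro a ha
    obtain ⟨D, hD⟩ := a.2
    obtain ⟨i, hi⟩ : ∃ i, a.1 i ≠ 0 := by
      by_contra h
      push Not at h
      exact ha (Subtype.ext (funext h))
    have hpos : 0 < ‖a.1 i * (ε i : K)‖ :=
      norm_pos_iff.2 (mul_ne_zero hi (by exact_mod_cast (hε0 i).ne'))
    have h1 : ∀ᶠ k : ℕ in atTop, (1 : ℝ) / (k + 1) ≤ ‖a.1 i * (ε i : K)‖ :=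
      (tendsto_one_div_add_atTop_nhds_zero_nat.eventually (gt_mem_nhds hpos)).mono
        fun k hk => hk.le
    filter_upwards [h1, eventually_gt_atTop i, eventually_ge_atTop ⌈D⌉₊] with k hk1 hk2 hk3
    refine ⟨fun j => a.1 j * (ε j : K), ⟨?_, ?_⟩, ?_⟩
    · rw [mem_closedBall_zero_iff, pi_norm_le_iff_of_nonneg (by positivity)]
      intro j
      rw [norm_mul, RCLike.norm_ofReal, abs_of_pos (hε0 j)]
      calc ‖a.1 j‖ * ε j ≤ ‖a.1 j‖ := mul_le_of_le_one_right (norm_nonneg _) (hε1 j)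
        _ ≤ D := hD j
        _ ≤ k := (Nat.le_ceil D).trans (by exact_mod_cast hk3)
    · rw [mem_ball_zero_iff, not_lt]
      exact hk1.trans (norm_le_pi_norm (fun j : Fin k => a.1 j * (ε j : K)) ⟨i, hk2⟩)
    · exact Fin.sum_univ_eq_sum_range (f a) k
  have hHC : ∀ a, a ≠ 0 → Dense (Set.range fun n : ℕ => (T ^ n) (Φ a)) := by
    intro a ha
    refine hO2 _ ?_
    filter_upwards [htail a, hhead a ha] with k h1 h2
    have := hNO k (Set.add_mem_add h2 h1)
    rwa [add_sub_cancel] at this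
  have hinj : Function.Injective Φ := by
    rw [injective_iff_map_eq_zero]
    intro a ha
    by_contra h
    have h1 := hHC a h
    rw [ha] at h1
    simp only [map_zero, Set.range_const] at h1
    obtain ⟨y, hy⟩ := exists_ne (0 : X)
    have := h1 y
    rw [closure_singleton] at this
    exact hy this
  refine ⟨LinearMap.range Φ, hx.mono ?_, ?_, ?_⟩
  · rintro _ ⟨k, rfl⟩
    refine ⟨⟨Pi.single k ((ε k : K))⁻¹, ‖((ε k : K))⁻¹‖, fun j => ?_⟩, ?_⟩
    · by_cases h : j = k
      · subst h; simp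
      · simp [h]
    · show ∑' j, f _ j = _
      rw [tsum_eq_single k]
      · have : (ε k : K) ≠ 0 := by exact_mod_cast (hε0 k).ne'
        simp [f, this]
      · intro j hj
        simp [f, hj]
  · rintro _ ⟨a, rfl⟩ hz
    exact hHC a fun h => hz (by rw [h, map_zero])
  · refine le_antisymm (Submodule.rank_le _) ?_
    rw [rank_range_of_injective Φ hinj]
    refine (rank_le_card K X).trans (le_trans ?_ (continuum_le_rank_Bdd K))
    have h1 : Function.Injective fun z : X => {i | z ∈ V i} := by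
      intro y z hyz
      refine hB.eq_iff.2 fun s hs => ?_
      rw [hV] at hs
      obtain ⟨i, rfl⟩ := hs
      exact Set.ext_iff.1 hyz i
    have := Cardinal.mk_le_of_injective h1
    rwa [Cardinal.mk_set, Cardinal.mk_nat, Cardinal.two_power_aleph0] at this

end Pool.Agent.P.MP_fd6048_an
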