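import Pool.Agent.P.MP_fd6048_an.Main

set_option autoImplicit false

namespace Pool.Agent.P.MP_fd6048_an.VariantInvariantMetric

/-- F-spaces given by a complete translation-invariant metric. -/
theorem result :
    ∀ (𝕂 : Type) [RCLike 𝕂] (X : Type) [AddCommGroup X] [Module 𝕂 X] [MetricSpace X]
      [CompleteSpace X] [ContinuousSMul 𝕂 X],
      (∀ x y z : X, dist (x + z) (y + z) = dist x y) →
      ∀ T : X →ₗ[𝕂] X, Continuous T →
      (∃ x : X, Dense (Set.range fun n : ℕ => (T ^ n) x)) →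
      ∃ M : Submodule 𝕂 X, Dense (M : Set X) ∧
        (∀ x ∈ M, x ≠ 0 → Dense (Set.range fun n : ℕ => (T ^ n) x)) ∧
        Module.rank 𝕂 M = Module.rank 𝕂 X := by
  intro 𝕂 _ X _ _ _ _ _ hinv T hT ⟨x, hx⟩
  have key : ∀ p q : X × X, dist (p.1 - p.2) (q.1 - q.2) ≤ 2 * dist p q := by
    intro p q
    have h1 : dist (p.1 - p.2) (q.1 - p.2) = dist p.1 q.1 := by
      rw [sub_eq_add_neg, sub_eq_add_neg, hinv]
    have h2 : dist (q.1 - p.2) (q.1 - q.2) = dist q.2 p.2 := by
      rw [← hinv (q.1 - p.2) (q.1 - q.2) (p.2 + q.2 - q.1)]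
      congr 1 <;> abel
    have h3 := dist_triangle (p.1 - p.2) (q.1 - p.2) (q.1 - q.2)
    have h4 : dist p.1 q.1 ≤ dist p q := by rw [Prod.dist_eq]; exact le_max_left _ _
    have h5 : dist p.2 q.2 ≤ dist p q := by rw [Prod.dist_eq]; exact le_max_right _ _
    rw [dist_comm q.2 p.2] at h2
    linarith
  have : IsUniformAddGroup X :=
    ⟨(LipschitzWith.of_dist_le_mul (K := 2) (f := fun p : X × X => p.1 - p.2)
      (fun p q => by simpa using key p q)).uniformContinuous⟩
  rcases subsingleton_or_nontrivial X with h | h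
  · exact ⟨⊤, by simp, fun z _ hz => absurd (Subsingleton.elim z 0) hz, rank_top 𝕂 X⟩
  · exact Pool.Agent.P.MP_fd6048_an.main 𝕂 X T hT x hx

end Pool.Agent.P.MP_fd6048_an.VariantInvariantMetric
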